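import Pool.Agent.Helper49.KX.St

set_option autoImplicit false

namespace Pool.Agent.Helper84.KX

open Pool.Agent.Helper49.KX

theorem hSYN : StSyn := by
  intro X _ _ h hd V hV hne
  have hcov : (Set.univ : Set X) ⊆ ⋃ n : ℤ, (fun x => (h ^ n : X ≃ₜ X) x) ⁻¹' V := by
    intro x _
    obtain ⟨y, hyV, n, rfl⟩ := (hd x).inter_open_nonempty V hV hne
    exact Set.mem_iUnion.2 ⟨n, hyV⟩
  obtain ⟨F, hF⟩ := isCompact_univ.elim_finite_subcover _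
    (fun n => hV.preimage (h ^ n : X ≃ₜ X).continuous) hcov
  have key : ∀ x, ∃ n : ℤ, n.natAbs ≤ F.sup Int.natAbs ∧ (h ^ n : X ≃ₜ X) x ∈ V := by
    intro x
    obtain ⟨n, hn, hx⟩ := Set.mem_iUnion₂.1 (hF (Set.mem_univ x))
    exact ⟨n, Finset.le_sup (f := Int.natAbs) hn, hx⟩
  have hadd : ∀ (a b : ℤ) (x : X), (h ^ (a + b) : X ≃ₜ X) x = (h ^ a : X ≃ₜ X) ((h ^ b : X ≃ₜ X) x) := by
    intro a b x
    rw [zpow_add]
    rfl
  generalize F.sup Int.natAbs = m at key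
  refine ⟨2 * m + 1, fun t => ⟨?_, ?_⟩⟩
  · obtain ⟨n, hn, hx⟩ := key ((h ^ (m : ℤ) : X ≃ₜ X) t)
    rw [← hadd] at hx
    refine ⟨(n + m).toNat, by omega, ?_⟩
    rw [Int.toNat_of_nonneg (by omega)]
    exact hx
  · obtain ⟨n, hn, hx⟩ := key ((h ^ (-(m : ℤ)) : X ≃ₜ X) t)
    rw [← hadd] at hx
    refine ⟨(m - n).toNat, by omega, ?_⟩
    rw [Int.toNat_of_nonneg (by omega)]
    have : -((m : ℤ) - n) = n + -(m : ℤ) := by ring
    rw [this]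
    exact hx

end Pool.Agent.Helper84.KX
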